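import Pool.Agent.Zk29.Po.E

/-!
# The basins of a polynomial on the sphere
-/

set_option autoImplicit false
open Set Filter Topology Metric Polynomial
open scoped OnePoint

namespace Pool.Agent.Zk71.Po

open Pool.Agent.H792R2.CE Pool.Agent.H792R2.CE.C2x Pool.Agent.Helper114.Herman
open Pool.Agent.H713R5.QJ
open Pool.Agent.Zk29.Mu (Basin Sink chord hco sink_of_der)
open Pool.Agent.Zk29.Po

/-- Growth of a polynomial of degree at least two. -/
lemma growth (T : ℂ[X]) (hT : 2 ≤ T.natDegree) (K : ℝ) :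
    ∃ R : ℝ, 1 ≤ R ∧ ∀ w : ℂ, R ≤ ‖w‖ → K * ‖w‖ ≤ ‖ev T w‖ := by
  have h0 : 0 < T.divX.degree := by
    rw [← natDegree_pos_iff_degree_pos, natDegree_divX_eq_natDegree_tsub_one]
    omega
  have h1 := (T.divX.tendsto_norm_atTop h0 (l := Bornology.cobounded ℂ) (z := fun z => z)
    tendsto_norm_cobounded_atTop).eventually_ge_atTop (K + ‖T.coeff 0‖)
  rw [← comap_norm_atTop, eventually_comap] at h1
  obtain ⟨R, hR⟩ := eventually_atTop.1 h1
  refine ⟨max R 1, le_max_right _ _, fun w hw => ?_⟩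
  have h2 : K + ‖T.coeff 0‖ ≤ ‖T.divX.eval w‖ := hR ‖w‖ ((le_max_left _ _).trans hw) w rfl
  have hw1 : 1 ≤ ‖w‖ := (le_max_right _ _).trans hw
  have e1 : ev T w = T.divX.eval w * w + T.coeff 0 := by
    unfold ev
    conv_lhs => rw [← divX_mul_X_add T]
    simp
  rw [e1]
  have h3 : ‖T.divX.eval w * w‖ ≤ ‖T.divX.eval w * w + T.coeff 0‖ + ‖T.coeff 0‖ := by
    have := norm_sub_le (T.divX.eval w * w + T.coeff 0) (T.coeff 0)
    rwa [add_sub_cancel_right] at this
  rw [norm_mul] at h3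
  have h4 : (K + ‖T.coeff 0‖) * ‖w‖ ≤ ‖T.divX.eval w‖ * ‖w‖ :=
    mul_le_mul_of_nonneg_right h2 (norm_nonneg w)
  have h5 : ‖T.coeff 0‖ ≤ ‖T.coeff 0‖ * ‖w‖ := le_mul_of_one_le_right (norm_nonneg _) hw1
  nlinarith

lemma sph_ev (d : ℕ) (T : ℂ[X]) (z : ℂ) : sph d T 1 (z : OnePoint ℂ) = ((ev T z : ℂ) : OnePoint ℂ) := by
  rw [sph_coe, eval_one, pr_one]
  rfl

lemma sph_it (d : ℕ) (T : ℂ[X]) (z : ℂ) (n : ℕ) :
    (sph d T 1)^[n] (z : OnePoint ℂ) = (((ev T)^[n] z : ℂ) : OnePoint ℂ) := by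
  induction n with
  | zero => rfl
  | succ n ih => rw [Function.iterate_succ_apply', ih, sph_ev, Function.iterate_succ_apply']

lemma sph_inf (T : ℂ[X]) (hT : 2 ≤ T.natDegree) : sph T.natDegree T 1 ∞ = ∞ := by
  rw [sph_infty, coeff_one, if_neg (by omega), pr_zero]

lemma chord_inf (z : ℂ) : chord (z : OnePoint ℂ) ∞ = 1 / √(‖z‖ ^ 2 + 1) := by
  have h1 : hco (z : OnePoint ℂ) = (z, 1) := rfl
  have h2 : hco (∞ : OnePoint ℂ) = (1, 0) := rfl
  unfold chord
  rw [h1, h2]
  simp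

lemma chord_ii : chord (∞ : OnePoint ℂ) ∞ = 0 := by
  have h2 : hco (∞ : OnePoint ℂ) = (1, 0) := rfl
  unfold chord
  rw [h2]
  simp

lemma sink_inf (T : ℂ[X]) (hT : 2 ≤ T.natDegree) : Sink (sph T.natDegree T 1) 1 ∞ := by
  refine ⟨one_pos, sph_inf T hT, 1 / 2, by norm_num, ?_⟩
  obtain ⟨R, hR1, hR⟩ := growth T hT 4
  have h1 : ∀ᶠ x : OnePoint ℂ in 𝓝 ∞, x = ∞ ∨ ∃ z : ℂ, x = (z : OnePoint ℂ) ∧ R ≤ ‖z‖ := by
    have h2 : IsOpen ({x : OnePoint ℂ | ¬ ∃ z : ℂ, x = (z : OnePoint ℂ) ∧ ‖z‖ ≤ R}) := by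
      have h3 : {x : OnePoint ℂ | ¬ ∃ z : ℂ, x = (z : OnePoint ℂ) ∧ ‖z‖ ≤ R} =
          (((↑) : ℂ → OnePoint ℂ) '' (closedBall 0 R))ᶜ := by
        ext x
        simp only [mem_ofPred_eq, mem_compl_iff, mem_image, mem_closedBall, dist_zero_right]
        constructor
        · rintro h ⟨z, hz, rfl⟩
          exact h ⟨z, rfl, hz⟩
        · rintro h ⟨z, rfl, hz⟩
          exact h ⟨z, hz, rfl⟩
      rw [h3, isOpen_compl_iff]
      exact ((isCompact_closedBall (0 : ℂ) R).image OnePoint.continuous_coe).isClosed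
    refine Filter.mem_of_superset (h2.mem_nhds ?_) ?_
    · rintro ⟨z, hz, -⟩
      exact OnePoint.infty_ne_coe z hz
    · intro x hx
      induction x using OnePoint.rec with
      | infty => exact Or.inl rfl
      | coe z =>
        refine Or.inr ⟨z, rfl, ?_⟩
        by_contra hz
        push Not at hz
        exact hx ⟨z, rfl, hz.le⟩
  filter_upwards [h1] with x hx
  rw [Function.iterate_one]
  rcases hx with rfl | ⟨z, rfl, hz⟩
  · rw [sph_inf T hT, chord_ii, mul_zero]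
  · rw [sph_ev, chord_inf, chord_inf]
    have h2 := hR z hz
    have hz1 : 1 ≤ ‖z‖ := hR1.trans hz
    have e1 : 0 < √(‖z‖ ^ 2 + 1) := Real.sqrt_pos.2 (by positivity)
    have h3 : 2 * √(‖z‖ ^ 2 + 1) ≤ √(‖ev T z‖ ^ 2 + 1) := by
      refine Real.le_sqrt_of_sq_le ?_
      rw [mul_pow, Real.sq_sqrt (by positivity)]
      nlinarith
    rw [div_mul_div_comm, one_mul]
    exact div_le_div_of_nonneg_left zero_le_one (by positivity) h3

lemma cont (T : ℂ[X]) (hT : 2 ≤ T.natDegree) : Continuous (sph T.natDegree T 1) := by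
  refine Pool.Agent.Zk29.Mu.sph_cont (by omega) ?_
  refine ⟨isCoprime_one_right, ?_⟩
  simp

/-- Convergence to infinity on the sphere. -/
lemma tend_inf (u : ℕ → ℂ) :
    Tendsto (fun k => ((u k : ℂ) : OnePoint ℂ)) atTop (𝓝 ∞) ↔ Tendsto (fun k => ‖u k‖) atTop atTop := by
  constructor
  · intro h
    rw [Filter.tendsto_atTop]
    intro R
    have h2 : IsOpen ((((↑) : ℂ → OnePoint ℂ) '' (closedBall 0 R))ᶜ) := by
      rw [isOpen_compl_iff]
      exact ((isCompact_closedBall (0 : ℂ) R).image OnePoint.continuous_coe).isClosed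
    have h3 := h.eventually (h2.mem_nhds (by
      rintro ⟨z, -, hz⟩
      exact OnePoint.coe_ne_infty z hz))
    filter_upwards [h3] with k hk
    by_contra hlt
    push Not at hlt
    exact hk ⟨u k, by rw [mem_closedBall, dist_zero_right]; exact hlt.le, rfl⟩
  · intro h
    have h1 : Tendsto u atTop (cocompact ℂ) := by
      rw [← Metric.cobounded_eq_cocompact]
      exact tendsto_norm_atTop_iff_cobounded.1 h
    rw [← coclosedCompact_eq_cocompact] at h1
    exact OnePoint.tendsto_coe_infty.comp h1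

theorem bas : S_BAS := by
  intro T hT
  refine ⟨sink_inf T hT, fun z => ⟨?_, ?_⟩⟩
  · rintro ⟨n, a, hs, ht⟩
    induction a using OnePoint.rec with
    | infty =>
      left
      simp only [sph_it] at ht
      have h1 := (tend_inf _).1 ht
      obtain ⟨R, hR1, hR⟩ := growth T hT 2
      obtain ⟨k, hk⟩ := (h1.eventually_ge_atTop R).exists
      exact opg_escape hR1 hR hk
    | coe c =>
      right
      have hfin : ∀ i : ℕ, (sph T.natDegree T 1)^[i] (c : OnePoint ℂ) ≠ ∞ := by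
        intro i
        rw [sph_it]
        exact OnePoint.coe_ne_infty _
      have hder := Pool.Agent.Zk29.Mu.NT.der_of_sink' (cont T hT) hfin hs
      rw [rf_one'] at hder
      refine ⟨n, hs.1, c, ?_, hder, ?_⟩
      · have h1 := hs.2.1
        rw [sph_it, OnePoint.coe_eq_coe] at h1
        exact h1
      · simp only [sph_it] at ht
        exact (OnePoint.isOpenEmbedding_coe.tendsto_nhds_iff).2 ht
  · rintro (h | ⟨n, hn, c, hc, hder, ht⟩)
    · refine ⟨1, ∞, sink_inf T hT, ?_⟩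
      simp only [sph_it, one_mul]
      exact (tend_inf _).2 h
    · refine ⟨n, c, sink_of_der hn (fun i => ?_) ?_ ?_, ?_⟩
      · rw [sph_it]
        exact OnePoint.coe_ne_infty _
      · rw [sph_it, hc]
      · rw [rf_one']
        exact hder
      · simp only [sph_it]
        exact (OnePoint.continuous_coe.tendsto c).comp ht

end Pool.Agent.Zk71.Po
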